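import Mathlib
import Pool.Agent.H13.Fill

open Set Pool.Agent.H13.Fill

namespace Pool.Agent.Results.MP_5f6599_gt.No

universe u v

theorem result {I : Type u} [Uncountable I] (X : I → Type v) [∀ i, TopologicalSpace (X i)]
    (hX : ∀ i, ¬ CompactSpace (X i)) (D : Set (∀ i, X i))
    (hD : ∀ J : Set I, J.Nonempty → J.Countable →
      (fun (d : ∀ i, X i) (i : J) => d i) '' D = univ) :
    ¬ (T2Space D ∧ ParacompactSpace D) := by
  rintro ⟨h2, hp⟩
  have hF := F.of_ne hD
  have hne : ∀ i, Nonempty (X i) := fun i => by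
    by_contra h
    rw [not_nonempty_iff] at h
    exact hX i inferInstance
  have y : ∀ i, X i := fun i => (hne i).some
  have : ∀ i, ∃ x : ℕ → X i, ∀ p, ∃ n, p ∉ closure (x '' Ici n) := by
    intro i
    by_contra h
    push Not at h
    exact hX i (cpt hF y i h)
  choose x hx using this
  exact stone hF (fun i n => (closure (x i '' Ici n))ᶜ) (fun _ _ => isClosed_closure.isOpen_compl)
    (fun i n m h => compl_subset_compl.2 (closure_mono (image_mono (Ici_subset_Ici.2 h)))) hx x
    (fun i n h => h (subset_closure ⟨n, le_refl n, rfl⟩)) hp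

end Pool.Agent.Results.MP_5f6599_gt.No
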